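import Pool.Agent.H73.GC.Defs

/-!
# Flag 2-spheres: definitions and elementary facts

A complex is a pair `(G, U)`: the flag complex of the graph `G` on the vertices in `U`.

* `Con G U`: the graph on `U` is connected (no proper nonempty subset is closed under adjacency).
* `Cyc G Z`: the graph on `Z` is a circuit of length at least `4`.
* `Surf G U`: a closed connected surface: all links are such circuits.
* `FS G U`: a flag 2-sphere: the sum of the degrees is `6 |U| - 12`.
-/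

set_option autoImplicit false
set_option linter.unusedSectionVars false
set_option linter.dupNamespace false

open Finset

namespace Pool.Agent.H67.FS

open Pool.Agent.H73.GC (lk lk2 merge NoSq)

variable {V : Type} [DecidableEq V] [Fintype V]

theorem mem_lk {G : SimpleGraph V} {U : Finset V} {v w : V} : w ∈ lk G U v ↔ w ∈ U ∧ G.Adj v w := by
  classical
  unfold lk
  rw [mem_filter]

theorem mem_lk2 {G : SimpleGraph V} {U : Finset V} {x u w : V} :
    w ∈ lk2 G U x u ↔ w ∈ U ∧ G.Adj x w ∧ G.Adj u w := by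
  classical
  unfold lk2
  rw [mem_filter]

theorem lk_lk (G : SimpleGraph V) (U : Finset V) (v a : V) : lk G (lk G U v) a = lk2 G U v a := by
  ext w
  rw [mem_lk, mem_lk, mem_lk2, and_assoc]

theorem lk2_comm (G : SimpleGraph V) (U : Finset V) (v a : V) : lk2 G U v a = lk2 G U a v := by
  ext w
  rw [mem_lk2, mem_lk2, and_comm (a := G.Adj v w)]

theorem lk_sub (G : SimpleGraph V) (U : Finset V) (v : V) : lk G U v ⊆ U := fun _ h => (mem_lk.1 h).1

theorem notMem_lk (G : SimpleGraph V) (U : Finset V) (v : V) : v ∉ lk G U v :=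
  fun h => (mem_lk.1 h).2.ne rfl

/-- the graph on `U` is connected -/
def Con (G : SimpleGraph V) (U : Finset V) : Prop :=
  U.Nonempty ∧ ∀ P ⊆ U, P.Nonempty → (∀ a ∈ P, ∀ b ∈ U, G.Adj a b → b ∈ P) → P = U

/-- the graph on `Z` is a circuit with at least `4` vertices -/
structure Cyc (G : SimpleGraph V) (Z : Finset V) : Prop where
  con : Con G Z
  two : ∀ a ∈ Z, (lk G Z a).card = 2
  four : 4 ≤ Z.card

/-- the flag complex on `U` is a closed connected surface -/
structure Surf (G : SimpleGraph V) (U : Finset V) : Prop where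
  con : Con G U
  cyc : ∀ v ∈ U, Cyc G (lk G U v)

/-- the flag complex on `U` is a 2-sphere -/
structure FS (G : SimpleGraph V) (U : Finset V) : Prop where
  surf : Surf G U
  euler : ∑ v ∈ U, (lk G U v).card + 12 = 6 * U.card

/-- a property which passes to neighbours holds everywhere -/
theorem Con.all {G : SimpleGraph V} {U : Finset V} (h : Con G U) {p : V → Prop} {a₀ : V} (ha₀ : a₀ ∈ U)
    (h₀ : p a₀) (hp : ∀ a ∈ U, p a → ∀ b ∈ U, G.Adj a b → p b) : ∀ a ∈ U, p a := by
  classical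
  have h1 := h.2 (U.filter p) (filter_subset _ _) ⟨a₀, mem_filter.2 ⟨ha₀, h₀⟩⟩ (fun a ha b hb hab => by
    rw [mem_filter] at ha ⊢
    exact ⟨hb, hp a ha.1 ha.2 b hb hab⟩)
  intro a ha
  rw [← h1, mem_filter] at ha
  exact ha.2

/-- the complement of a closed set is closed -/
theorem closed_compl {G : SimpleGraph V} {U P : Finset V} (hP : ∀ a ∈ P, ∀ b ∈ U, G.Adj a b → b ∈ P) :
    ∀ a ∈ U \ P, ∀ b ∈ U, G.Adj a b → b ∈ U \ P := by
  intro a ha b hb hab
  rw [mem_sdiff] at ha ⊢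
  exact ⟨hb, fun h => ha.2 (hP b h a ha.1 hab.symm)⟩

/-- two connected sets with a common vertex -/
theorem Con.union {G : SimpleGraph V} {A B : Finset V} (hA : Con G A) (hB : Con G B) {c : V} (ha : c ∈ A)
    (hb : c ∈ B) : Con G (A ∪ B) := by
  classical
  refine ⟨⟨c, mem_union_left _ ha⟩, fun P hP hne hcl => ?_⟩
  have key : ∀ Z : Finset V, Con G Z → Z ⊆ A ∪ B → ∀ a ∈ Z, a ∈ P → Z ⊆ P := by
    intro Z hZ hZs a haZ haP b hbZ
    exact hZ.all (p := fun x => x ∈ P) haZ haP (fun x hx hxP y hy hxy => hcl x hxP y (hZs hy) hxy) b hbZ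
  obtain ⟨p, hp⟩ := hne
  have hcP : c ∈ P := by
    rcases mem_union.1 (hP hp) with h | h
    · exact key A hA subset_union_left p h hp ha
    · exact key B hB subset_union_right p h hp hb
  refine subset_antisymm hP (union_subset ?_ ?_)
  · exact key A hA subset_union_left c ha hcP
  · exact key B hB subset_union_right c hb hcP

/-- only the edges in `U` matter -/
theorem Con.congr {G G' : SimpleGraph V} {U : Finset V} (h : ∀ a ∈ U, ∀ b ∈ U, G.Adj a b ↔ G'.Adj a b)
    (hc : Con G U) : Con G' U :=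
  ⟨hc.1, fun P hP hne hcl => hc.2 P hP hne fun a ha b hb hab => hcl a ha b hb ((h a (hP ha) b hb).1 hab)⟩

theorem lk_congr {G G' : SimpleGraph V} {U : Finset V} (h : ∀ a ∈ U, ∀ b ∈ U, G.Adj a b ↔ G'.Adj a b) {a : V}
    (ha : a ∈ U) : lk G U a = lk G' U a := by
  ext w
  rw [mem_lk, mem_lk]
  exact and_congr_right fun hw => h a ha w hw

theorem Cyc.congr {G G' : SimpleGraph V} {U : Finset V} (h : ∀ a ∈ U, ∀ b ∈ U, G.Adj a b ↔ G'.Adj a b)
    (hc : Cyc G U) : Cyc G' U :=
  ⟨hc.con.congr h, fun a ha => by rw [← lk_congr h ha]; exact hc.two a ha, hc.four⟩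

/-- transport of a circuit along an injective map -/
theorem Con.map {G G' : SimpleGraph V} {Z : Finset V} (σ : Equiv.Perm V)
    (h : ∀ a ∈ Z, ∀ b ∈ Z, G.Adj a b ↔ G'.Adj (σ a) (σ b)) (hc : Con G Z) : Con G' (Z.map σ.toEmbedding) := by
  classical
  refine ⟨hc.1.map, fun P hP hne hcl => ?_⟩
  have h1 : P.map σ.symm.toEmbedding ⊆ Z := by
    intro a ha
    obtain ⟨b, hb, rfl⟩ := mem_map.1 ha
    obtain ⟨c, hc, hcb⟩ := mem_map.1 (hP hb)
    have : σ.symm.toEmbedding b = c := by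
      rw [← hcb]
      exact σ.symm_apply_apply c
    rw [this]
    exact hc
  have h2 : ∀ a, a ∈ P.map σ.symm.toEmbedding ↔ σ a ∈ P := by
    intro a
    rw [mem_map]
    constructor
    · rintro ⟨b, hb, rfl⟩
      have : σ (σ.symm.toEmbedding b) = b := σ.apply_symm_apply b
      rwa [this]
    · intro ha
      exact ⟨σ a, ha, σ.symm_apply_apply a⟩
  have h3 := hc.2 _ h1 hne.map (fun a ha b hb hab => by
    rw [h2] at ha ⊢
    exact hcl (σ a) ha (σ b) (mem_map_of_mem _ hb) ((h a (h1 ((h2 a).2 ha)) b hb).1 hab))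
  refine subset_antisymm hP fun x hx => ?_
  obtain ⟨a, ha, rfl⟩ := mem_map.1 hx
  rw [← h3, h2] at ha
  exact ha

theorem lk_map {G G' : SimpleGraph V} {Z : Finset V} (σ : Equiv.Perm V)
    (h : ∀ a ∈ Z, ∀ b ∈ Z, G.Adj a b ↔ G'.Adj (σ a) (σ b)) {a : V} (ha : a ∈ Z) :
    lk G' (Z.map σ.toEmbedding) (σ a) = (lk G Z a).map σ.toEmbedding := by
  ext w
  rw [mem_lk, mem_map, mem_map]
  constructor
  · rintro ⟨⟨b, hb, rfl⟩, hab⟩
    exact ⟨b, mem_lk.2 ⟨hb, (h a ha b hb).2 hab⟩, rfl⟩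
  · rintro ⟨b, hb, rfl⟩
    rw [mem_lk] at hb
    exact ⟨⟨b, hb.1, rfl⟩, (h a ha b hb.1).1 hb.2⟩

theorem Cyc.map {G G' : SimpleGraph V} {Z : Finset V} (σ : Equiv.Perm V)
    (h : ∀ a ∈ Z, ∀ b ∈ Z, G.Adj a b ↔ G'.Adj (σ a) (σ b)) (hc : Cyc G Z) : Cyc G' (Z.map σ.toEmbedding) := by
  refine ⟨hc.con.map σ h, fun x hx => ?_, by rw [card_map]; exact hc.four⟩
  obtain ⟨a, ha, rfl⟩ := mem_map.1 hx
  have h1 := lk_map σ h ha
  have h2 : σ.toEmbedding a = σ a := rfl
  rw [h2, h1, card_map]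
  exact hc.two a ha

/-- there are no triangles in a circuit -/
theorem Cyc.noTri {G : SimpleGraph V} {Z : Finset V} (h : Cyc G Z) {a b c : V} (ha : a ∈ Z) (hb : b ∈ Z)
    (hc : c ∈ Z) (hab : G.Adj a b) (hac : G.Adj a c) (hbc : G.Adj b c) : False := by
  classical
  have key : ∀ x ∈ Z, ∀ y ∈ Z, ∀ z ∈ Z, G.Adj x y → G.Adj x z → y ≠ z → ∀ w ∈ Z, G.Adj x w → w = y ∨ w = z := by
    intro x hx y hy z hz hxy hxz hyz w hw hxw
    have h1 : ({y, z} : Finset V) = lk G Z x := by
      refine eq_of_subset_of_card_le ?_ ?_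
      · intro t ht
        rw [mem_insert, mem_singleton] at ht
        rcases ht with rfl | rfl
        · exact mem_lk.2 ⟨hy, hxy⟩
        · exact mem_lk.2 ⟨hz, hxz⟩
      · rw [h.two x hx, card_pair hyz]
    have h2 : w ∈ ({y, z} : Finset V) := by
      rw [h1]
      exact mem_lk.2 ⟨hw, hxw⟩
    rwa [mem_insert, mem_singleton] at h2
  have h1 := h.con.2 {a, b, c} (by
      intro x hx
      simp only [mem_insert, mem_singleton] at hx
      rcases hx with rfl | rfl | rfl <;> assumption) ⟨a, by simp⟩ (by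
      intro x hx y hy hxy
      simp only [mem_insert, mem_singleton] at hx ⊢
      rcases hx with rfl | rfl | rfl
      · rcases key x ha b hb c hc hab hac hbc.ne y hy hxy with h | h
        · exact Or.inr (Or.inl h)
        · exact Or.inr (Or.inr h)
      · rcases key x hb a ha c hc hab.symm hbc hac.ne y hy hxy with h | h
        · exact Or.inl h
        · exact Or.inr (Or.inr h)
      · rcases key x hc a ha b hb hac.symm hbc.symm hab.ne y hy hxy with h | h
        · exact Or.inl h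
        · exact Or.inr (Or.inl h))
  have h2 := h.four
  rw [← h1] at h2
  have h3 : ({a, b, c} : Finset V).card ≤ 3 := card_le_three
  omega

/-- the neighbours of a vertex of a circuit -/
theorem Cyc.pair {G : SimpleGraph V} {Z : Finset V} (h : Cyc G Z) {a : V} (ha : a ∈ Z) :
    ∃ p q : V, p ≠ q ∧ lk G Z a = {p, q} ∧ ¬ G.Adj p q := by
  obtain ⟨p, q, hpq, he⟩ := card_eq_two.1 (h.two a ha)
  refine ⟨p, q, hpq, he, fun hadj => ?_⟩
  have hp : p ∈ lk G Z a := by
    rw [he]
    simp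
  have hq : q ∈ lk G Z a := by
    rw [he]
    simp
  rw [mem_lk] at hp hq
  exact h.noTri ha hp.1 hq.1 hp.2 hq.2 hadj

/-- no four pairwise adjacent vertices -/
theorem Surf.noK4 {G : SimpleGraph V} {U : Finset V} (h : Surf G U) {v a b c : V} (hv : v ∈ U) (ha : a ∈ U)
    (hb : b ∈ U) (hc : c ∈ U) (hva : G.Adj v a) (hvb : G.Adj v b) (hvc : G.Adj v c) (hab : G.Adj a b)
    (hac : G.Adj a c) (hbc : G.Adj b c) : False :=
  (h.cyc v hv).noTri (mem_lk.2 ⟨ha, hva⟩) (mem_lk.2 ⟨hb, hvb⟩) (mem_lk.2 ⟨hc, hvc⟩) hab hac hbc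

/-- the two common neighbours of the ends of an edge -/
theorem Surf.pair {G : SimpleGraph V} {U : Finset V} (h : Surf G U) {v a : V} (hv : v ∈ U) (ha : a ∈ U)
    (hva : G.Adj v a) : ∃ p q : V, p ≠ q ∧ lk2 G U v a = {p, q} ∧ ¬ G.Adj p q := by
  have := (h.cyc v hv).pair (mem_lk.2 ⟨ha, hva⟩)
  rwa [lk_lk] at this

theorem Surf.card_lk2 {G : SimpleGraph V} {U : Finset V} (h : Surf G U) {v a : V} (hv : v ∈ U) (ha : a ∈ U)
    (hva : G.Adj v a) : (lk2 G U v a).card = 2 := by
  rw [← lk_lk]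
  exact (h.cyc v hv).two a (mem_lk.2 ⟨ha, hva⟩)

end Pool.Agent.H67.FS
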