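import Pool.Agent.H67.FS.Defs
import Pool.Agent.H73.GC.Good

/-!
# Subcomplexes of circuits and of flag 2-spheres; complexes whose links are in flag 2-spheres

Given that flag 2-spheres are `Good 2`: their full subcomplexes are `Good 2`, and a complex all of whose vertex
links are full subcomplexes of flag 2-spheres is `Good 3`.
-/

set_option autoImplicit false
set_option linter.unusedSectionVars false
set_option linter.dupNamespace false

open Finset

namespace Pool.Agent.H67.FS

open Pool.Agent.H73.GC (lk lk2 merge NoSq Good)

variable {V : Type} [DecidableEq V] [Fintype V]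

theorem lk_mono {G : SimpleGraph V} {U W : Finset V} (h : W ⊆ U) (v : V) : lk G W v ⊆ lk G U v :=
  fun _ hw => mem_lk.2 ⟨h (mem_lk.1 hw).1, (mem_lk.1 hw).2⟩

/-- one vertex -/
theorem good_single (G : SimpleGraph V) (p : V) : Good G {p} 1 := by
  have h := Good.cone G ∅ p 1 (notMem_empty p) (fun w hw => absurd hw (notMem_empty w)) (Good.empty G)
  rwa [insert_empty] at h

/-- at most two vertices which are not adjacent -/
theorem good_pair {G : SimpleGraph V} {p q : V} (hpq : p ≠ q) (hn : ¬ G.Adj p q) {W : Finset V}
    (hW : W ⊆ {p, q}) : Good G W 1 := by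
  classical
  have key : ∀ w ∈ W, w = p ∨ w = q := by
    intro w hw
    have := hW hw
    rwa [mem_insert, mem_singleton] at this
  by_cases hp : p ∈ W
  · by_cases hq : q ∈ W
    · refine Good.le G W 0 1 (Nat.zero_le _) (Good.susp G W p q hp hq hpq hn fun w hw h1 h2 => ?_)
      rcases key w hw with h | h
      · exact absurd h h1
      · exact absurd h h2
    · have h : W = {p} := by
        ext w
        rw [mem_singleton]
        constructor
        · intro hw
          rcases key w hw with h | h
          · exact h
          · exact absurd (h ▸ hw) hq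
        · rintro rfl
          exact hp
      rw [h]
      exact good_single G p
  · by_cases hq : q ∈ W
    · have h : W = {q} := by
        ext w
        rw [mem_singleton]
        constructor
        · intro hw
          rcases key w hw with h | h
          · exact absurd (h ▸ hw) hp
          · exact h
        · rintro rfl
          exact hq
      rw [h]
      exact good_single G q
    · have h : W = ∅ := by
        refine eq_empty_of_forall_notMem fun w hw => ?_
        rcases key w hw with h | h
        · exact hp (h ▸ hw)
        · exact hq (h ▸ hw)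
      rw [h]
      exact Good.empty G

/-- deletion of all vertices one after the other -/
theorem good_del {G : SimpleGraph V} {t : ℕ} (ht : 1 ≤ t) {U : Finset V}
    (h : ∀ W ⊆ U, ∀ v ∈ W, Good G (lk G W v) t) : ∀ W ⊆ U, Good G W (t + 1) := by
  classical
  intro W
  induction W using Finset.strongInduction with
  | H W ih =>
    intro hW
    rcases W.eq_empty_or_nonempty with rfl | ⟨v, hv⟩
    · exact Good.le G ∅ 1 (t + 1) (by omega) (Good.empty G)
    · exact Good.del G W v t hv (ih _ (erase_ssubset hv) ((erase_subset _ _).trans hW)) (h W hW v hv)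

/-- full subcomplexes of a circuit -/
theorem good_cyc {G : SimpleGraph V} {Z : Finset V} (h : Cyc G Z) {W : Finset V} (hW : W ⊆ Z) :
    Good G W 2 := by
  refine good_del (t := 1) le_rfl (U := Z) ?_ W hW
  intro W hW v hv
  obtain ⟨p, q, hpq, he, hn⟩ := h.pair (hW hv)
  refine good_pair hpq hn ?_
  rw [← he]
  exact lk_mono hW v

/-- full subcomplexes of a flag 2-sphere -/
theorem good_sub {G : SimpleGraph V} {U : Finset V} (h : Surf G U) (hg : Good G U 2) {W : Finset V}
    (hW : W ⊆ U) : Good G W 2 := by
  classical
  have key : ∀ n : ℕ, ∀ W ⊆ U, (U \ W).card = n → Good G W 2 := by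
    intro n
    induction n with
    | zero =>
      intro W hW hc
      have : W = U := subset_antisymm hW (sdiff_eq_empty_iff_subset.1 (card_eq_zero.1 hc))
      rw [this]
      exact hg
    | succ n ih =>
      intro W hW hc
      obtain ⟨v, hv⟩ := card_pos.1 (by omega : 0 < (U \ W).card)
      rw [mem_sdiff] at hv
      have h1 : insert v W ⊆ U := insert_subset hv.1 hW
      have h2 : (U \ insert v W).card = n := by
        have h6 : U \ insert v W = (U \ W).erase v := by
          ext w
          simp only [mem_sdiff, mem_insert, mem_erase]
          tauto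
        rw [h6, card_erase_of_mem (mem_sdiff.2 hv), hc]
        rfl
      have h3 := ih _ h1 h2
      have h4 : Good G (lk G (insert v W) v) 2 :=
        good_cyc (h.cyc v hv.1) (lk_mono h1 v)
      have h5 := Good.rem G (insert v W) v 2 (mem_insert_self v W) h3 h4
      rwa [erase_insert hv.2] at h5
  exact key _ W hW rfl

/-- A complex all of whose vertex links are full subcomplexes of flag 2-spheres. -/
theorem good_three (hfs : ∀ (G : SimpleGraph V) (U : Finset V), FS G U → Good G U 2) {G : SimpleGraph V}
    {U : Finset V} (h : ∀ v ∈ U, ∃ (G' : SimpleGraph V) (U' : Finset V), FS G' U' ∧ lk G U v ⊆ U' ∧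
      ∀ a ∈ lk G U v, ∀ b ∈ lk G U v, G'.Adj a b ↔ G.Adj a b) {W : Finset V} (hW : W ⊆ U) :
    Good G W 3 := by
  refine good_del (t := 2) (by norm_num) (U := U) ?_ W hW
  intro W hW v hv
  obtain ⟨G', U', hF, hs, hadj⟩ := h v (hW hv)
  have h1 : lk G W v ⊆ lk G U v := lk_mono hW v
  exact Good.congr G' G _ 2 (fun a ha b hb => hadj a (h1 ha) b (h1 hb))
    (good_sub hF.surf (hfs G' U' hF) (h1.trans hs))

end Pool.Agent.H67.FS
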