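import Pool.Agent.H67.FS.Defs

/-!
# Flag 2-spheres: homology with coefficients mod 2

Edges: the cliques `e ⊆ U` with two elements; faces: the cliques `t ⊆ U` with three elements. `2 |E| = ∑ deg`, `3 |F| = ∑ deg`.
`M : U × E` and `D : E × F` the incidence matrices mod 2. The range of `M` has codimension at most `1`
(`Con`), the kernel of `D` (functions on `F`) consists of `0` and `1` (`loc`: constant around every vertex), and
`M D = 0`. So `|F| - 1 ≤ rank D ≤ |E| - rank M ≤ |E| - (|U| - 1)`, with equality iff every even set of edges is a boundary.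
-/

set_option autoImplicit false
set_option linter.unusedSectionVars false

open Finset

namespace Pool.Agent.H67.FS

open Pool.Agent.H73.GC (lk lk2)

/-- the dimension count -/
theorem rank_count {K α β γ : Type} [Field K] [Fintype α] [Fintype β] [Fintype γ]
    (A : (β → K) →ₗ[K] (α → K)) (B : (γ → K) →ₗ[K] (β → K)) (hAB : ∀ x, A (B x) = 0)
    (hB : Module.finrank K (LinearMap.ker B) ≤ 1)
    (hA : Fintype.card α ≤ Module.finrank K (LinearMap.range A) + 1) :
    Fintype.card γ + Fintype.card α ≤ Fintype.card β + 2 ∧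
      (Fintype.card β + 2 ≤ Fintype.card γ + Fintype.card α → LinearMap.range B = LinearMap.ker A) := by
  have h1 := LinearMap.finrank_range_add_finrank_ker B
  have h2 := LinearMap.finrank_range_add_finrank_ker A
  rw [Module.finrank_fintype_fun_eq_card] at h1 h2
  have h3 : LinearMap.range B ≤ LinearMap.ker A := by
    rintro _ ⟨x, rfl⟩
    exact hAB x
  have h4 := Submodule.finrank_mono h3
  refine ⟨by omega, fun h5 => ?_⟩
  exact Submodule.eq_of_le_of_finrank_le h3 (by omega)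

variable {V : Type} [DecidableEq V] [Fintype V]

/-- a function on the faces which is constant around each edge at `v` is constant around `v` -/
theorem loc {α : Type} {G : SimpleGraph V} {U : Finset V} (h : Surf G U) {v : V} (hv : v ∈ U)
    (f : Finset V → α)
    (hf : ∀ a ∈ lk G U v, ∀ p ∈ lk2 G U v a, ∀ q ∈ lk2 G U v a, f {v, a, p} = f {v, a, q}) :
    ∃ s, ∀ a ∈ lk G U v, ∀ b ∈ lk G U v, G.Adj a b → f {v, a, b} = s := by
  have hc := h.cyc v hv
  obtain ⟨a₀, ha₀⟩ := hc.con.1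
  obtain ⟨p₀, q₀, -, h2, -⟩ := hc.pair ha₀
  rw [lk_lk] at h2
  have hp₀ : p₀ ∈ lk2 G U v a₀ := by
    rw [h2]
    exact mem_insert_self _ _
  refine ⟨f {v, a₀, p₀}, ?_⟩
  refine hc.con.all (p := fun a => ∀ b ∈ lk G U v, G.Adj a b → f {v, a, b} = f {v, a₀, p₀}) ha₀ ?_ ?_
  · intro b hb hab
    refine hf a₀ ha₀ b ?_ p₀ hp₀
    rw [← lk_lk]
    exact mem_lk.2 ⟨hb, hab⟩
  · intro a ha hP b hb hab d hd hbd
    rw [← hP b hb hab, hf b hb d (by rw [← lk_lk]; exact mem_lk.2 ⟨hd, hbd⟩) a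
      (by rw [← lk_lk]; exact mem_lk.2 ⟨ha, hab.symm⟩), pair_comm b a]

open Classical in
/-- the edges -/
noncomputable def EE (G : SimpleGraph V) (U : Finset V) : Finset (Sym2 V) :=
  U.sym2.filter fun e => e ∈ G.edgeSet

open Classical in
/-- the faces -/
noncomputable def FF (G : SimpleGraph V) (U : Finset V) : Finset (Finset V) :=
  U.powerset.filter fun t => t.card = 3 ∧ ∀ a ∈ t, ∀ b ∈ t, a ≠ b → G.Adj a b

theorem mem_EE {G : SimpleGraph V} {U : Finset V} {a b : V} :
    s(a, b) ∈ EE G U ↔ (a ∈ U ∧ b ∈ U) ∧ G.Adj a b := by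
  classical
  unfold EE
  rw [mem_filter, mk_mem_sym2_iff, SimpleGraph.mem_edgeSet]

theorem mem_FF {G : SimpleGraph V} {U : Finset V} {t : Finset V} :
    t ∈ FF G U ↔ t ⊆ U ∧ t.card = 3 ∧ ∀ a ∈ t, ∀ b ∈ t, a ≠ b → G.Adj a b := by
  classical
  unfold FF
  rw [mem_filter, mem_powerset]

theorem EE_at (G : SimpleGraph V) (U : Finset V) {v : V} (hv : v ∈ U) :
    (EE G U).filter (fun e => v ∈ e) = (lk G U v).image fun w => s(v, w) := by
  ext e
  rw [mem_filter, mem_image]
  constructor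
  · rintro ⟨h1, h2⟩
    obtain ⟨w, rfl⟩ := Sym2.mem_iff_exists.1 h2
    rw [mem_EE] at h1
    exact ⟨w, mem_lk.2 ⟨h1.1.2, h1.2⟩, rfl⟩
  · rintro ⟨w, hw, rfl⟩
    rw [mem_lk] at hw
    exact ⟨mem_EE.2 ⟨⟨hv, hw.1⟩, hw.2⟩, Sym2.mem_mk_left v w⟩

theorem sum_EE {M : Type} [AddCommMonoid M] (G : SimpleGraph V) (U : Finset V) {v : V} (hv : v ∈ U)
    (g : Sym2 V → M) : ∑ e ∈ (EE G U).filter (fun e => v ∈ e), g e = ∑ w ∈ lk G U v, g s(v, w) := by
  rw [EE_at G U hv, sum_image]
  intro a _ b _ hab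
  exact Sym2.congr_right.1 hab

theorem FF_at (G : SimpleGraph V) (U : Finset V) {a b : V} (ha : a ∈ U) (hb : b ∈ U)
    (hab : G.Adj a b) :
    (FF G U).filter (fun t => a ∈ t ∧ b ∈ t) = (lk2 G U a b).image fun p => {a, b, p} := by
  ext t
  rw [mem_filter, mem_image, mem_FF]
  constructor
  · rintro ⟨⟨h1, h2, h3⟩, h4, h5⟩
    have h6 : ({a, b} : Finset V) ⊆ t := by
      intro x hx
      rw [mem_insert, mem_singleton] at hx
      rcases hx with rfl | rfl <;> assumption
    have h7 : (t \ {a, b}).card = 1 := by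
      rw [card_sdiff_of_subset h6, h2, card_pair hab.ne]
    obtain ⟨p, hp⟩ := card_eq_one.1 h7
    have h8 : p ∈ t \ {a, b} := by
      rw [hp]
      exact mem_singleton_self p
    rw [mem_sdiff, mem_insert, mem_singleton, not_or] at h8
    refine ⟨p, mem_lk2.2 ⟨h1 h8.1, h3 a h4 p h8.1 (Ne.symm h8.2.1), h3 b h5 p h8.1 (Ne.symm h8.2.2)⟩, ?_⟩
    rw [← sdiff_union_of_subset h6, hp]
    ext x
    simp only [mem_insert, mem_singleton, mem_union]
    tauto
  · rintro ⟨p, hp, rfl⟩
    rw [mem_lk2] at hp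
    refine ⟨⟨?_, ?_, ?_⟩, by simp, by simp⟩
    · intro x hx
      simp only [mem_insert, mem_singleton] at hx
      rcases hx with rfl | rfl | rfl
      · exact ha
      · exact hb
      · exact hp.1
    · exact card_eq_three.2 ⟨a, b, p, hab.ne, hp.2.1.ne, hp.2.2.ne, rfl⟩
    · intro x hx y hy hxy
      simp only [mem_insert, mem_singleton] at hx hy
      rcases hx with rfl | rfl | rfl <;> rcases hy with rfl | rfl | rfl
      · exact absurd rfl hxy
      · exact hab
      · exact hp.2.1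
      · exact hab.symm
      · exact absurd rfl hxy
      · exact hp.2.2
      · exact hp.2.1.symm
      · exact hp.2.2.symm
      · exact absurd rfl hxy

theorem inj_at (G : SimpleGraph V) (U : Finset V) {a b : V} :
    ∀ p ∈ lk2 G U a b, ∀ q ∈ lk2 G U a b, ({a, b, p} : Finset V) = {a, b, q} → p = q := by
  intro p hp q hq h
  rw [mem_lk2] at hp hq
  have h1 : p ∈ ({a, b, q} : Finset V) := by
    rw [← h]
    simp
  simp only [mem_insert, mem_singleton] at h1
  rcases h1 with h1 | h1 | h1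
  · exact absurd h1.symm hp.2.1.ne
  · exact absurd h1.symm hp.2.2.ne
  · exact h1

theorem sum_FF {M : Type} [AddCommMonoid M] (G : SimpleGraph V) (U : Finset V) {a b : V}
    (ha : a ∈ U) (hb : b ∈ U) (hab : G.Adj a b) (g : Finset V → M) :
    ∑ t ∈ (FF G U).filter (fun t => a ∈ t ∧ b ∈ t), g t = ∑ p ∈ lk2 G U a b, g {a, b, p} := by
  rw [FF_at G U ha hb hab, sum_image]
  intro p hp q hq h
  exact inj_at G U p hp q hq h

/-- a face at `v` contains two neighbours of `v` -/
theorem two_at {G : SimpleGraph V} {U : Finset V} {v : V} {t : Finset V} (ht : t ∈ FF G U)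
    (hv : v ∈ t) : ((lk G U v).filter fun w => w ∈ t).card = 2 := by
  rw [mem_FF] at ht
  have h1 : (lk G U v).filter (fun w => w ∈ t) = t.erase v := by
    ext w
    rw [mem_filter, mem_lk, mem_erase]
    constructor
    · rintro ⟨⟨-, h2⟩, h3⟩
      exact ⟨h2.ne', h3⟩
    · rintro ⟨h2, h3⟩
      exact ⟨⟨ht.1 h3, ht.2.2 v hv w h3 (Ne.symm h2)⟩, h3⟩
  rw [h1, card_erase_of_mem hv, ht.2.1]

/-- exchange of sums around a vertex -/
theorem exch {M : Type} [AddCommMonoid M] {G : SimpleGraph V} {U : Finset V} {v : V} (hv : v ∈ U)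
    (g : Finset V → M) :
    ∑ w ∈ lk G U v, ∑ p ∈ lk2 G U v w, g {v, w, p} =
      ∑ t ∈ (FF G U).filter (fun t => v ∈ t), 2 • g t := by
  classical
  have h1 : ∀ w ∈ lk G U v, ∑ p ∈ lk2 G U v w, g {v, w, p} =
      ∑ t ∈ (FF G U).filter (fun t => v ∈ t), if w ∈ t then g t else 0 := by
    intro w hw
    rw [mem_lk] at hw
    rw [← sum_FF G U hv hw.1 hw.2, ← sum_filter, filter_filter]
  rw [sum_congr rfl h1, sum_comm]
  refine sum_congr rfl fun t ht => ?_
  rw [mem_filter] at ht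
  rw [← sum_filter, sum_const, two_at ht.1 ht.2]

theorem deg_EE (G : SimpleGraph V) (U : Finset V) : ∑ v ∈ U, (lk G U v).card = 2 * (EE G U).card := by
  classical
  have h1 : ∀ v ∈ U, (lk G U v).card = ∑ e ∈ EE G U, if v ∈ e then 1 else 0 := by
    intro v hv
    rw [← sum_filter, sum_EE G U hv, sum_const, smul_eq_mul, mul_one]
  rw [sum_congr rfl h1, sum_comm]
  have h2 : ∀ e ∈ EE G U, (∑ v ∈ U, if v ∈ e then 1 else 0) = 2 := by
    intro e he
    induction e using Sym2.ind with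
    | _ a b =>
      rw [mem_EE] at he
      have h3 : U.filter (fun v => v ∈ s(a, b)) = {a, b} := by
        ext x
        rw [mem_filter, Sym2.mem_iff, mem_insert, mem_singleton]
        constructor
        · exact fun h => h.2
        · rintro (rfl | rfl)
          · exact ⟨he.1.1, Or.inl rfl⟩
          · exact ⟨he.1.2, Or.inr rfl⟩
      rw [← sum_filter, h3, sum_const, card_pair he.2.ne]
      rfl
  rw [sum_congr rfl h2, sum_const, smul_eq_mul, mul_comm]

theorem deg_FF {G : SimpleGraph V} {U : Finset V} (h : Surf G U) :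
    ∑ v ∈ U, (lk G U v).card = 3 * (FF G U).card := by
  classical
  have h1 : ∀ v ∈ U, (lk G U v).card = ∑ t ∈ FF G U, if v ∈ t then 1 else 0 := by
    intro v hv
    have h2 := exch (G := G) (U := U) hv fun _ => 1
    simp only [sum_const, smul_eq_mul, mul_one] at h2
    rw [← sum_filter, sum_const, smul_eq_mul, mul_one]
    have h3 : ∑ w ∈ lk G U v, (lk2 G U v w).card = ∑ w ∈ lk G U v, 2 := by
      refine sum_congr rfl fun w hw => ?_
      rw [mem_lk] at hw
      exact h.card_lk2 hv hw.1 hw.2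
    rw [h3, sum_const, smul_eq_mul] at h2
    omega
  rw [sum_congr rfl h1, sum_comm]
  have h2 : ∀ t ∈ FF G U, (∑ v ∈ U, if v ∈ t then 1 else 0) = 3 := by
    intro t ht
    rw [mem_FF] at ht
    have h3 : U.filter (fun v => v ∈ t) = t := by
      ext x
      rw [mem_filter]
      exact ⟨fun h => h.2, fun h => ⟨ht.1 h, h⟩⟩
    rw [← sum_filter, h3, sum_const, ht.2.1]
    rfl
  rw [sum_congr rfl h2, sum_const, smul_eq_mul, mul_comm]

open Classical in
/-- the incidence matrix of the vertices and edges -/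
noncomputable def MM (G : SimpleGraph V) (U : Finset V) :
    Matrix {v // v ∈ U} {e // e ∈ EE G U} (ZMod 2) := fun v e => if v.1 ∈ e.1 then 1 else 0

open Classical in
/-- the incidence matrix of the edges and faces -/
noncomputable def DD (G : SimpleGraph V) (U : Finset V) :
    Matrix {e // e ∈ EE G U} {t // t ∈ FF G U} (ZMod 2) :=
  fun e t => if ∀ x ∈ e.1, x ∈ t.1 then 1 else 0

theorem ext_sub {α β : Type} [Zero β] (s : Finset α) (x : {a // a ∈ s} → β) :
    ∃ g : α → β, x = fun a => g a.1 :=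
  ⟨Function.extend Subtype.val x 0, by
    funext a
    rw [Subtype.val_injective.extend_apply]⟩

theorem MM_apply (G : SimpleGraph V) (U : Finset V) (g : Sym2 V → ZMod 2) (v : {v // v ∈ U}) :
    (MM G U).mulVec (fun e => g e.1) v = ∑ w ∈ lk G U v.1, g s(v.1, w) := by
  classical
  have h1 : (MM G U).mulVec (fun e => g e.1) v =
      ∑ e : {e // e ∈ EE G U}, if v.1 ∈ e.1 then g e.1 else 0 := by
    show ∑ e : {e // e ∈ EE G U}, MM G U v e * g e.1 = _
    refine sum_congr rfl fun e _ => ?_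
    unfold MM
    split_ifs
    · rw [one_mul]
    · rw [zero_mul]
  rw [h1, sum_coe_sort (EE G U) fun e => if v.1 ∈ e then g e else 0, ← sum_filter,
    sum_EE G U v.2]

theorem DD_fun (G : SimpleGraph V) (U : Finset V) (g : Finset V → ZMod 2) :
    ∃ g₂ : Sym2 V → ZMod 2, ((DD G U).mulVec fun t => g t.1) = (fun e => g₂ e.1) ∧
      ∀ a ∈ U, ∀ b ∈ U, G.Adj a b → g₂ s(a, b) = ∑ p ∈ lk2 G U a b, g {a, b, p} := by
  classical
  refine ⟨fun e => ∑ t ∈ FF G U, if ∀ x ∈ e, x ∈ t then g t else 0, ?_, ?_⟩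
  · funext e
    refine Eq.trans ?_ (sum_coe_sort (FF G U) fun t => if ∀ x ∈ e.1, x ∈ t then g t else 0)
    refine sum_congr rfl fun t _ => ?_
    show DD G U e t * g t.1 = _
    unfold DD
    split_ifs
    · rw [one_mul]
    · rw [zero_mul]
  · intro a ha b hb hab
    rw [← sum_FF G U ha hb hab, sum_filter]
    refine sum_congr rfl fun t _ => ?_
    refine if_congr ?_ rfl rfl
    constructor
    · intro h
      exact ⟨h a (Sym2.mem_mk_left a b), h b (Sym2.mem_mk_right a b)⟩
    · rintro ⟨h1, h2⟩ x hx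
      rcases Sym2.mem_iff.1 hx with rfl | rfl <;> assumption

theorem MM_DD (G : SimpleGraph V) (U : Finset V) (x : {t // t ∈ FF G U} → ZMod 2) :
    (MM G U).mulVecLin ((DD G U).mulVecLin x) = 0 := by
  obtain ⟨g, rfl⟩ := ext_sub _ x
  obtain ⟨g₂, h1, h2⟩ := DD_fun G U g
  show (MM G U).mulVec ((DD G U).mulVec fun t => g t.1) = 0
  rw [h1]
  funext v
  rw [MM_apply]
  have h3 : ∀ w ∈ lk G U v.1, g₂ s(v.1, w) = ∑ p ∈ lk2 G U v.1 w, g {v.1, w, p} := by
    intro w hw
    rw [mem_lk] at hw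
    exact h2 v.1 v.2 w hw.1 hw.2
  rw [sum_congr rfl h3, exch v.2]
  refine sum_eq_zero fun t _ => ?_
  rw [two_nsmul]
  exact CharTwo.add_self_eq_zero _

theorem ker_DD {G : SimpleGraph V} {U : Finset V} (h : Surf G U) :
    Module.finrank (ZMod 2) (LinearMap.ker (DD G U).mulVecLin) ≤ 1 := by
  have h1 : LinearMap.ker (DD G U).mulVecLin ≤ Submodule.span (ZMod 2) {fun _ => 1} := by
    intro x hx
    obtain ⟨g, rfl⟩ := ext_sub _ x
    obtain ⟨g₂, h2, h3⟩ := DD_fun G U g
    have h4 : (DD G U).mulVec (fun t => g t.1) = 0 := hx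
    have h5 : ∀ a ∈ U, ∀ b ∈ U, G.Adj a b → ∀ p ∈ lk2 G U a b, ∀ q ∈ lk2 G U a b,
        g {a, b, p} = g {a, b, q} := by
      intro a ha b hb hab p hp q hq
      by_cases hpq : p = q
      · rw [hpq]
      have h6 : g₂ s(a, b) = 0 := by
        have h7 := congrFun (h2.symm.trans h4) ⟨s(a, b), mem_EE.2 ⟨⟨ha, hb⟩, hab⟩⟩
        exact h7
      have h8 : lk2 G U a b = {p, q} := by
        refine (eq_of_subset_of_card_le ?_ ?_).symm
        · intro x hx
          rw [mem_insert, mem_singleton] at hx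
          rcases hx with rfl | rfl <;> assumption
        · rw [h.card_lk2 ha hb hab, card_pair hpq]
      rw [h3 a ha b hb hab, h8, sum_pair hpq] at h6
      exact CharTwo.add_eq_zero.1 h6
    have h6 : ∀ v ∈ U, ∃ s, ∀ a ∈ lk G U v, ∀ b ∈ lk G U v, G.Adj a b → g {v, a, b} = s :=
      fun v hv => loc h hv g fun a ha p hp q hq =>
        h5 v hv a (mem_lk.1 ha).1 (mem_lk.1 ha).2 p hp q hq
    obtain ⟨v₀, hv₀⟩ := h.con.1
    obtain ⟨s, hs⟩ := h6 v₀ hv₀
    have h7 : ∀ v ∈ U, ∀ a ∈ lk G U v, ∀ b ∈ lk G U v, G.Adj a b → g {v, a, b} = s := by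
      refine h.con.all (p := fun v => ∀ a ∈ lk G U v, ∀ b ∈ lk G U v, G.Adj a b →
        g {v, a, b} = s) hv₀ hs ?_
      intro v hv hP w hw hvw
      obtain ⟨s', hs'⟩ := h6 w hw
      obtain ⟨p, q, -, hpq, -⟩ := h.pair hv hw hvw
      have hp : p ∈ lk2 G U v w := by
        rw [hpq]
        exact mem_insert_self _ _
      rw [mem_lk2] at hp
      have h8 : g {v, w, p} = s := hP w (mem_lk.2 ⟨hw, hvw⟩) p (mem_lk.2 ⟨hp.1, hp.2.1⟩) hp.2.2
      have h9 : g {w, v, p} = s' := hs' v (mem_lk.2 ⟨hv, hvw.symm⟩) p (mem_lk.2 ⟨hp.1, hp.2.2⟩)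
        hp.2.1
      rw [insert_comm] at h9
      have h10 : s' = s := h9.symm.trans h8
      rw [← h10]
      exact hs'
    refine Submodule.mem_span_singleton.2 ⟨s, ?_⟩
    funext t
    obtain ⟨t, ht⟩ := t
    show s * 1 = g t
    rw [mul_one]
    rw [mem_FF] at ht
    obtain ⟨ht1, ht2, ht3⟩ := ht
    obtain ⟨a, b, c, hab, hac, hbc, rfl⟩ := card_eq_three.1 ht2
    refine (h7 a (ht1 (by simp)) b (mem_lk.2 ⟨ht1 (by simp), ht3 a (by simp) b (by simp) hab⟩)
      c (mem_lk.2 ⟨ht1 (by simp), ht3 a (by simp) c (by simp) hac⟩)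
      (ht3 b (by simp) c (by simp) hbc)).symm
  refine (Submodule.finrank_mono h1).trans ?_
  refine (finrank_span_le_card _).trans ?_
  simp

theorem range_MM {G : SimpleGraph V} {U : Finset V} (h : Con G U) :
    Fintype.card {v // v ∈ U} ≤ Module.finrank (ZMod 2) (LinearMap.range (MM G U).mulVecLin) + 1 := by
  classical
  obtain ⟨v₀, hv₀⟩ := h.1
  set S : Submodule (ZMod 2) ({v // v ∈ U} → ZMod 2) :=
    LinearMap.range (MM G U).mulVecLin ⊔ Submodule.span (ZMod 2) {Pi.single ⟨v₀, hv₀⟩ 1} with hS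
  have h1 : ∀ v ∈ U, ∀ hv : v ∈ U, (Pi.single ⟨v, hv⟩ 1 : {v // v ∈ U} → ZMod 2) ∈ S := by
    refine h.all (p := fun v => ∀ hv : v ∈ U, (Pi.single ⟨v, hv⟩ 1 : {v // v ∈ U} → ZMod 2) ∈ S)
      hv₀ ?_ ?_
    · intro _
      exact Submodule.mem_sup_right (Submodule.mem_span_singleton_self _)
    · intro a ha hP b hb hab hb'
      have h2 : (MM G U).mulVecLin (Pi.single ⟨s(a, b), mem_EE.2 ⟨⟨ha, hb⟩, hab⟩⟩ 1) =
          (Pi.single ⟨a, ha⟩ 1 : {v // v ∈ U} → ZMod 2) + Pi.single ⟨b, hb⟩ 1 := by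
        funext v
        rw [Matrix.mulVecLin_apply, Matrix.mulVec_single_one]
        show MM G U v _ = (Pi.single ⟨a, ha⟩ 1 : {v // v ∈ U} → ZMod 2) v +
          (Pi.single ⟨b, hb⟩ 1 : {v // v ∈ U} → ZMod 2) v
        unfold MM
        rw [Pi.single_apply, Pi.single_apply]
        by_cases hva : v.1 = a
        · have h3 : v = ⟨a, ha⟩ := Subtype.ext hva
          have h4 : v ≠ ⟨b, hb⟩ := fun h5 => hab.ne (hva.symm.trans (congrArg Subtype.val h5))
          rw [if_pos h3, if_neg h4, add_zero, if_pos]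
          rw [hva]
          exact Sym2.mem_mk_left a b
        · have h3 : v ≠ ⟨a, ha⟩ := fun h5 => hva (congrArg Subtype.val h5)
          rw [if_neg h3, zero_add]
          refine if_congr ?_ rfl rfl
          rw [Sym2.mem_iff]
          constructor
          · rintro (h5 | h5)
            · exact absurd h5 hva
            · exact Subtype.ext h5
          · intro h5
            exact Or.inr (congrArg Subtype.val h5)
      have h3 : (Pi.single ⟨b, hb⟩ 1 : {v // v ∈ U} → ZMod 2) =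
          (MM G U).mulVecLin (Pi.single ⟨s(a, b), mem_EE.2 ⟨⟨ha, hb⟩, hab⟩⟩ 1) -
            Pi.single ⟨a, ha⟩ 1 := by
        rw [h2, add_sub_cancel_left]
      rw [h3]
      exact S.sub_mem (Submodule.mem_sup_left ⟨_, rfl⟩) (hP ha)
  have h2 : S = ⊤ := by
    rw [eq_top_iff, ← (Pi.basisFun (ZMod 2) {v // v ∈ U}).span_eq, Submodule.span_le]
    rintro _ ⟨v, rfl⟩
    rw [Pi.basisFun_apply]
    exact h1 v.1 v.2 v.2
  have h3 : Module.finrank (ZMod 2) S = Fintype.card {v // v ∈ U} := by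
    rw [h2, finrank_top, Module.finrank_fintype_fun_eq_card]
  have h4 := Submodule.finrank_add_le_finrank_add_finrank (LinearMap.range (MM G U).mulVecLin)
    (Submodule.span (ZMod 2) {(Pi.single ⟨v₀, hv₀⟩ 1 : {v // v ∈ U} → ZMod 2)})
  have h5 : Module.finrank (ZMod 2) (Submodule.span (ZMod 2)
      {(Pi.single ⟨v₀, hv₀⟩ 1 : {v // v ∈ U} → ZMod 2)}) ≤ 1 := by
    refine (finrank_span_le_card _).trans ?_
    simp
  rw [← h3]
  exact h4.trans (Nat.add_le_add_left h5 _)

/-- the Euler characteristic of a closed connected surface is at most `2` -/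
theorem surf_le {G : SimpleGraph V} {U : Finset V} (h : Surf G U) :
    6 * U.card ≤ ∑ v ∈ U, (lk G U v).card + 12 := by
  have h1 := (rank_count (MM G U).mulVecLin (DD G U).mulVecLin (MM_DD G U) (ker_DD h)
    (range_MM h.con)).1
  rw [Fintype.card_coe, Fintype.card_coe, Fintype.card_coe] at h1
  have h2 := deg_EE G U
  have h3 := deg_FF h
  omega

/-- every even set of edges is the boundary of a set of faces -/
theorem fs_bound {G : SimpleGraph V} {U : Finset V} (h : FS G U) (c : V → V → ZMod 2)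
    (hsymm : ∀ a b, c a b = c b a) (heven : ∀ a ∈ U, ∑ b ∈ lk G U a, c a b = 0) :
    ∃ f : Finset V → ZMod 2, ∀ a ∈ U, ∀ b ∈ U, G.Adj a b → ∑ p ∈ lk2 G U a b, f {a, b, p} = c a b := by
  have h1 := (rank_count (MM G U).mulVecLin (DD G U).mulVecLin (MM_DD G U) (ker_DD h.surf)
    (range_MM h.surf.con)).2
  rw [Fintype.card_coe, Fintype.card_coe, Fintype.card_coe] at h1
  have h2 := deg_EE G U
  have h3 := deg_FF h.surf
  have h4 := h.euler
  have h5 := h1 (by omega)
  set g : Sym2 V → ZMod 2 := Sym2.lift ⟨c, hsymm⟩ with hg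
  have h6 : (fun e : {e // e ∈ EE G U} => g e.1) ∈ LinearMap.ker (MM G U).mulVecLin := by
    rw [LinearMap.mem_ker]
    funext v
    rw [Matrix.mulVecLin_apply, MM_apply]
    exact heven v.1 v.2
  rw [← h5] at h6
  obtain ⟨x, hx⟩ := h6
  obtain ⟨f, rfl⟩ := ext_sub _ x
  obtain ⟨g₂, h7, h8⟩ := DD_fun G U f
  refine ⟨f, fun a ha b hb hab => ?_⟩
  rw [← h8 a ha b hb hab]
  rw [Matrix.mulVecLin_apply, h7] at hx
  have h9 := congrFun hx ⟨s(a, b), mem_EE.2 ⟨⟨ha, hb⟩, hab⟩⟩
  exact h9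

end Pool.Agent.H67.FS
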