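import Pool.Agent.H67.FS.Rank
import Pool.Agent.H32.S2.Defs

/-!
# Flag 2-spheres: the two sides of a full circuit

`C ⊆ U`, every vertex of `C` has an even number of neighbours in `C`: the edges in `C` are the boundary of a set of faces (`fs_bound`). Around a vertex outside `C` all faces
have the same value, so there is a set `A ⊆ U \ C` which is closed under adjacency in `U \ C`, and for every edge in `C` whose two common neighbours are not in `C` exactly one of them is in `A`. `exists_cut`: the case of an induced circuit of length `4`.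
-/

set_option autoImplicit false
set_option linter.unusedSectionVars false

open Finset

namespace Pool.Agent.H67.FS

open Pool.Agent.H73.GC (lk lk2)
open Pool.Agent.H32.S2 (Sq Cut)

variable {V : Type} [DecidableEq V] [Fintype V]

private theorem z2_eq {a b : ZMod 2} (h : a + b = 0) : a = b := by
  have h1 : b + b = 0 := ZModModule.add_self b
  exact add_right_cancel (h.trans h1.symm)

private theorem z2_one {a b : ZMod 2} (h : a + b = 1) : a = 1 ↔ b ≠ 1 := by
  revert h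
  revert a b
  decide

/-- the values on the faces at `v` are equal, if they are equal on both sides of the edges at `v` -/
private theorem Side_loc {G : SimpleGraph V} {U : Finset V} {v : V} (hc : Cyc G (lk G U v)) {f : Finset V → ZMod 2}
    (hf : ∀ a ∈ lk G U v, ∑ p ∈ lk2 G U v a, f {v, a, p} = 0) :
    ∃ s : ZMod 2, ∀ a ∈ lk G U v, ∀ b ∈ lk G U v, G.Adj a b → f {v, a, b} = s := by
  classical
  have hf2 : ∀ a ∈ lk G U v, ∀ p ∈ lk2 G U v a, ∀ q ∈ lk2 G U v a, f {v, a, p} = f {v, a, q} := by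
    intro a ha p hp q hq
    obtain ⟨p', q', hpq, he, -⟩ := hc.pair ha
    rw [lk_lk] at he
    have h1 := hf a ha
    rw [he, sum_pair hpq] at h1
    have h2 := z2_eq h1
    rw [he, mem_insert, mem_singleton] at hp hq
    rcases hp with rfl | rfl <;> rcases hq with rfl | rfl
    · rfl
    · exact h2
    · exact h2.symm
    · rfl
  obtain ⟨a₀, ha₀⟩ := hc.con.1
  obtain ⟨p₀, q₀, -, he₀, -⟩ := hc.pair ha₀
  rw [lk_lk] at he₀
  have hp₀ : p₀ ∈ lk2 G U v a₀ := by
    rw [he₀]
    simp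
  have hall := hc.con.all (p := fun a => ∀ p ∈ lk2 G U v a, f {v, a, p} = f {v, a₀, p₀}) ha₀
    (fun p hp => hf2 a₀ ha₀ p hp p₀ hp₀) (fun a ha hpa b hb hab p hp => by
      have h1 : b ∈ lk2 G U v a := mem_lk2.2 ⟨(mem_lk.1 hb).1, (mem_lk.1 hb).2, hab⟩
      have h2 : a ∈ lk2 G U v b := mem_lk2.2 ⟨(mem_lk.1 ha).1, (mem_lk.1 ha).2, hab.symm⟩
      rw [hf2 b hb p hp a h2, ← hpa b h1]
      congr 1
      rw [pair_comm b a])
  exact ⟨f {v, a₀, p₀}, fun a ha b hb hab => hall a ha b (mem_lk2.2 ⟨(mem_lk.1 hb).1, (mem_lk.1 hb).2, hab⟩)⟩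

/-- the sides of a full circuit -/
theorem side {G : SimpleGraph V} {U : Finset V} (h : FS G U) {C : Finset V} (hC : C ⊆ U) (hev : ∀ x ∈ C, Even (lk G C x).card) :
    ∃ A ⊆ U \ C, (∀ u ∈ A, ∀ w ∈ U, w ∉ C → G.Adj u w → w ∈ A) ∧
      ∀ x ∈ C, ∀ y ∈ C, G.Adj x y → ∀ p q, p ≠ q → lk2 G U x y = {p, q} → p ∉ C → q ∉ C → (p ∈ A ↔ q ∉ A) := by
  classical
  obtain ⟨f, hf⟩ := fs_bound h (fun x y => if x ∈ C ∧ y ∈ C ∧ G.Adj x y then 1 else 0) (fun x y => by
      have : (x ∈ C ∧ y ∈ C ∧ G.Adj x y) ↔ (y ∈ C ∧ x ∈ C ∧ G.Adj y x) := by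
        rw [G.adj_comm x y]
        tauto
      simp only [this]) (fun x _ => by
      by_cases hx : x ∈ C
      · have h1 : ∑ y ∈ lk G U x, (if x ∈ C ∧ y ∈ C ∧ G.Adj x y then (1 : ZMod 2) else 0) = ((lk G C x).card : ZMod 2) := by
          rw [← sum_filter, sum_const, nsmul_eq_mul, mul_one]
          congr 2
          ext y
          rw [mem_filter, mem_lk, mem_lk]
          constructor
          · rintro ⟨-, -, h2, h3⟩
            exact ⟨h2, h3⟩
          · rintro ⟨h2, h3⟩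
            exact ⟨⟨hC h2, h3⟩, hx, h2, h3⟩
        rw [h1]
        exact (ZMod.natCast_eq_zero_iff_even).2 (hev x hx)
      · exact sum_eq_zero fun y _ => if_neg fun h1 => hx h1.1)
  -- the common value at a vertex outside `C`
  have hloc : ∀ v ∈ U, v ∉ C → ∃ s : ZMod 2, ∀ a ∈ lk G U v, ∀ b ∈ lk G U v, G.Adj a b → f {v, a, b} = s := by
    intro v hv hvC
    refine Side_loc (h.surf.cyc v hv) fun a ha => ?_
    rw [mem_lk] at ha
    rw [hf v hv a ha.1 ha.2, if_neg fun h1 => hvC h1.1]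
  refine ⟨(U \ C).filter fun v => ∀ a ∈ lk G U v, ∀ b ∈ lk G U v, G.Adj a b → f {v, a, b} = 1, filter_subset _ _, ?_, ?_⟩
  · intro u hu w hw hwC huw
    rw [mem_filter, mem_sdiff] at hu ⊢
    refine ⟨⟨hw, hwC⟩, ?_⟩
    obtain ⟨p, q, -, he, -⟩ := h.surf.pair hu.1.1 hw huw
    have hp : p ∈ lk2 G U u w := by
      rw [he]
      simp
    rw [mem_lk2] at hp
    have h1 : f {u, w, p} = 1 := hu.2 w (mem_lk.2 ⟨hw, huw⟩) p (mem_lk.2 ⟨hp.1, hp.2.1⟩) hp.2.2
    obtain ⟨s, hs⟩ := hloc w hw hwC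
    have h2 : f {w, u, p} = s := hs u (mem_lk.2 ⟨hu.1.1, huw.symm⟩) p (mem_lk.2 ⟨hp.1, hp.2.2⟩) hp.2.1
    have h3 : ({w, u, p} : Finset V) = {u, w, p} := insert_comm w u {p}
    rw [h3, h1] at h2
    intro a ha b hb hab
    rw [hs a ha b hb hab, ← h2]
  · intro x hx y hy hxy p q hpq he hp hq
    have hp2 : p ∈ lk2 G U x y := by
      rw [he]
      simp
    have hq2 : q ∈ lk2 G U x y := by
      rw [he]
      simp
    rw [mem_lk2] at hp2 hq2
    have h1 := hf x (hC hx) y (hC hy) hxy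
    rw [he, sum_pair hpq, if_pos ⟨hx, hy, hxy⟩] at h1
    have key : ∀ r, r ∈ U → G.Adj x r → G.Adj y r → r ∉ C → (r ∈ (U \ C).filter (fun v => ∀ a ∈ lk G U v, ∀ b ∈ lk G U v, G.Adj a b → f {v, a, b} = 1) ↔ f {x, y, r} = 1) := by
      intro r hr hxr hyr hrC
      have h3 : ({r, x, y} : Finset V) = {x, y, r} := by
        ext t
        simp only [mem_insert, mem_singleton]
        tauto
      obtain ⟨s, hs⟩ := hloc r hr hrC
      have h2 : f {r, x, y} = s := hs x (mem_lk.2 ⟨hC hx, hxr.symm⟩) y (mem_lk.2 ⟨hC hy, hyr.symm⟩) hxy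
      rw [h3] at h2
      rw [mem_filter, mem_sdiff, h2]
      constructor
      · rintro ⟨-, h4⟩
        rw [← h2, ← h3]
        exact h4 x (mem_lk.2 ⟨hC hx, hxr.symm⟩) y (mem_lk.2 ⟨hC hy, hyr.symm⟩) hxy
      · intro h4
        exact ⟨⟨hr, hrC⟩, fun a ha b hb hab => by rw [hs a ha b hb hab, h4]⟩
    rw [key p hp2.1 hp2.2.1 hp2.2.2 hp, key q hq2.1 hq2.2.1 hq2.2.2 hq]
    exact z2_one h1

/-- the two sides of an induced 4-circuit -/
theorem exists_cut {G : SimpleGraph V} {U : Finset V} (h : FS G U) {a b c d : V}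
    (hq : Sq G U a b c d) : ∃ A B : Finset V, Cut G U a b c d A B := by
  classical
  obtain ⟨C, hCd⟩ : ∃ C : Finset V, C = {a, b, c, d} := ⟨_, rfl⟩
  have hmC : ∀ v, v ∈ C ↔ v = a ∨ v = b ∨ v = c ∨ v = d := by
    intro v
    rw [hCd]
    simp only [mem_insert, mem_singleton]
  have hC : C ⊆ U := by
    intro v hv
    rcases (hmC v).1 hv with rfl | rfl | rfl | rfl
    · exact hq.ha
    · exact hq.hb
    · exact hq.hc
    · exact hq.hd
  have hab := hq.ab
  have hbc := hq.bc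
  have hcd := hq.cd
  have hda := hq.da
  have hac := hq.ac
  have hbd := hq.bd
  have hca : ¬ G.Adj c a := fun h1 => hac h1.symm
  have hdb : ¬ G.Adj d b := fun h1 => hbd h1.symm
  have hev : ∀ x ∈ C, Even (lk G C x).card := by
    have key : ∀ x y z : V, y ≠ z → (∀ v, v ∈ lk G C x ↔ v = y ∨ v = z) → Even (lk G C x).card := by
      intro x y z hyz hv
      have h1 : lk G C x = {y, z} := by
        ext v
        rw [hv v, mem_insert, mem_singleton]
      rw [h1, card_pair hyz]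
      exact even_two
    intro x hx
    rcases (hmC x).1 hx with rfl | rfl | rfl | rfl
    · refine key x b d hq.nbd fun v => ?_
      rw [mem_lk, hmC]
      constructor
      · rintro ⟨rfl | rfl | rfl | rfl, h1⟩
        · exact absurd h1 (G.loopless.irrefl _)
        · exact Or.inl rfl
        · exact absurd h1 hac
        · exact Or.inr rfl
      · rintro (rfl | rfl)
        · exact ⟨Or.inr (Or.inl rfl), hab⟩
        · exact ⟨Or.inr (Or.inr (Or.inr rfl)), hda.symm⟩
    · refine key x a c hq.nac fun v => ?_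
      rw [mem_lk, hmC]
      constructor
      · rintro ⟨rfl | rfl | rfl | rfl, h1⟩
        · exact Or.inl rfl
        · exact absurd h1 (G.loopless.irrefl _)
        · exact Or.inr rfl
        · exact absurd h1 hbd
      · rintro (rfl | rfl)
        · exact ⟨Or.inl rfl, hab.symm⟩
        · exact ⟨Or.inr (Or.inr (Or.inl rfl)), hbc⟩
    · refine key x b d hq.nbd fun v => ?_
      rw [mem_lk, hmC]
      constructor
      · rintro ⟨rfl | rfl | rfl | rfl, h1⟩
        · exact absurd h1 hca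
        · exact Or.inl rfl
        · exact absurd h1 (G.loopless.irrefl _)
        · exact Or.inr rfl
      · rintro (rfl | rfl)
        · exact ⟨Or.inr (Or.inl rfl), hbc.symm⟩
        · exact ⟨Or.inr (Or.inr (Or.inr rfl)), hcd⟩
    · refine key x a c hq.nac fun v => ?_
      rw [mem_lk, hmC]
      constructor
      · rintro ⟨rfl | rfl | rfl | rfl, h1⟩
        · exact Or.inl rfl
        · exact absurd h1 hdb
        · exact Or.inr rfl
        · exact absurd h1 (G.loopless.irrefl _)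
      · rintro (rfl | rfl)
        · exact ⟨Or.inl rfl, hda⟩
        · exact ⟨Or.inr (Or.inr (Or.inl rfl)), hcd.symm⟩
  obtain ⟨A, hAs, hAc, hAe⟩ := side h hC hev
  have hAU : ∀ v ∈ A, v ∈ U ∧ v ∉ C := fun v hv => mem_sdiff.1 (hAs hv)
  have hB : ∀ v, v ∈ (U \ C) \ A ↔ (v ∈ U ∧ v ∉ C) ∧ v ∉ A := by
    intro v
    rw [mem_sdiff, mem_sdiff]
  have hedge : ∀ x ∈ C, ∀ y ∈ C, G.Adj x y → (∀ v ∈ C, G.Adj x v → G.Adj y v → False) →
      ∃ p ∈ A, ∃ q ∈ (U \ C) \ A, lk2 G U x y = {p, q} := by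
    intro x hx y hy hxy hno
    obtain ⟨p, q, hpq, he, -⟩ := h.surf.pair (hC hx) (hC hy) hxy
    have hp : p ∈ lk2 G U x y := by
      rw [he]
      simp
    have hq' : q ∈ lk2 G U x y := by
      rw [he]
      simp
    rw [mem_lk2] at hp hq'
    have hpC : p ∉ C := fun h1 => hno p h1 hp.2.1 hp.2.2
    have hqC : q ∉ C := fun h1 => hno q h1 hq'.2.1 hq'.2.2
    have h1 := hAe x hx y hy hxy p q hpq he hpC hqC
    by_cases hpA : p ∈ A
    · exact ⟨p, hpA, q, (hB q).2 ⟨⟨hq'.1, hqC⟩, h1.1 hpA⟩, he⟩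
    · have hqA : q ∈ A := by
        by_contra h2
        exact hpA (h1.2 h2)
      exact ⟨q, hqA, p, (hB p).2 ⟨⟨hp.1, hpC⟩, hpA⟩, by rw [he, pair_comm]⟩
  have ha : a ∈ C := (hmC a).2 (Or.inl rfl)
  have hb : b ∈ C := (hmC b).2 (Or.inr (Or.inl rfl))
  have hc : c ∈ C := (hmC c).2 (Or.inr (Or.inr (Or.inl rfl)))
  have hd : d ∈ C := (hmC d).2 (Or.inr (Or.inr (Or.inr rfl)))
  refine ⟨A, (U \ C) \ A, hq, ?_, ?_, ?_, ?_, ?_, ?_, ?_, ?_, ?_⟩
  · intro v
    rw [hB, hmC]
    constructor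
    · intro hv
      by_cases h1 : v ∈ A
      · exact Or.inl h1
      · by_cases h2 : v = a ∨ v = b ∨ v = c ∨ v = d
        · exact Or.inr (Or.inr h2)
        · exact Or.inr (Or.inl ⟨⟨hv, h2⟩, h1⟩)
    · rintro (h1 | h1 | h1)
      · exact (hAU v h1).1
      · exact h1.1.1
      · exact hC ((hmC v).2 h1)
  · exact fun v hv hv2 => ((hB v).1 hv2).2 hv
  · exact ⟨fun h1 => (hAU a h1).2 ha, fun h1 => (hAU b h1).2 hb, fun h1 => (hAU c h1).2 hc, fun h1 => (hAU d h1).2 hd⟩
  · exact ⟨fun h1 => ((hB a).1 h1).1.2 ha, fun h1 => ((hB b).1 h1).1.2 hb, fun h1 => ((hB c).1 h1).1.2 hc, fun h1 => ((hB d).1 h1).1.2 hd⟩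
  · exact fun v hv w hw hvw => ((hB w).1 hw).2 (hAc v hv w ((hB w).1 hw).1.1 ((hB w).1 hw).1.2 hvw)
  · refine hedge a ha b hb hab fun v hv h1 h2 => ?_
    rcases (hmC v).1 hv with rfl | rfl | rfl | rfl
    · exact G.loopless.irrefl _ h1
    · exact G.loopless.irrefl _ h2
    · exact hac h1
    · exact hbd h2
  · refine hedge b hb c hc hbc fun v hv h1 h2 => ?_
    rcases (hmC v).1 hv with rfl | rfl | rfl | rfl
    · exact hca h2
    · exact G.loopless.irrefl _ h1
    · exact G.loopless.irrefl _ h2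
    · exact hbd h1
  · refine hedge c hc d hd hcd fun v hv h1 h2 => ?_
    rcases (hmC v).1 hv with rfl | rfl | rfl | rfl
    · exact hca h1
    · exact hdb h2
    · exact G.loopless.irrefl _ h1
    · exact G.loopless.irrefl _ h2
  · refine hedge d hd a ha hda fun v hv h1 h2 => ?_
    rcases (hmC v).1 hv with rfl | rfl | rfl | rfl
    · exact G.loopless.irrefl _ h2
    · exact hdb h1
    · exact hac h2
    · exact G.loopless.irrefl _ h1

end Pool.Agent.H67.FS
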