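import Pool.Agent.H32.S2.Defs
import Pool.Agent.H67.FS.Side

/-!
# Flag 2-spheres: the three cases

A flag 2-sphere is the octahedron, or it has an edge which is in no induced 4-circuit, or it has an induced
4-circuit with at least two vertices on both sides.
-/

set_option autoImplicit false
set_option linter.unusedSectionVars false
set_option linter.dupNamespace false

open Finset

namespace Pool.Agent.H67.FS

open Pool.Agent.H73.GC (lk lk2 merge NoSq)
open Pool.Agent.H32.S2 (Sq Cut)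

variable {V : Type} [DecidableEq V] [Fintype V]

/-- the neighbours of a vertex in a circuit are two given ones -/
theorem Cyc.lk_eq {G : SimpleGraph V} {Z : Finset V} (h : Cyc G Z) {p q s : V} (hp : p ∈ Z) (hq : q ∈ Z)
    (hs : s ∈ Z) (hpq : G.Adj p q) (hps : G.Adj p s) (hqs : q ≠ s) : lk G Z p = {q, s} := by
  symm
  refine eq_of_subset_of_card_le ?_ (by rw [h.two p hp, card_pair hqs])
  intro t ht
  rw [mem_insert, mem_singleton] at ht
  rcases ht with rfl | rfl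
  · exact mem_lk.2 ⟨hq, hpq⟩
  · exact mem_lk.2 ⟨hs, hps⟩

/-- a circuit which contains a circuit of length four -/
theorem Cyc.eq_four {G : SimpleGraph V} {Z : Finset V} (h : Cyc G Z) {p q r s : V} (hp : p ∈ Z) (hq : q ∈ Z)
    (hr : r ∈ Z) (hs : s ∈ Z) (hpq : G.Adj p q) (hqr : G.Adj q r) (hrs : G.Adj r s) (hsp : G.Adj s p)
    (hpr : p ≠ r) (hqs : q ≠ s) : Z = {p, q, r, s} := by
  symm
  refine h.con.2 _ ?_ ⟨p, by simp⟩ ?_
  · intro t ht
    simp only [mem_insert, mem_singleton] at ht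
    rcases ht with rfl | rfl | rfl | rfl <;> assumption
  · intro t ht w hw htw
    have hw' : w ∈ lk G Z t := mem_lk.2 ⟨hw, htw⟩
    simp only [mem_insert, mem_singleton] at ht ⊢
    rcases ht with rfl | rfl | rfl | rfl
    · rw [h.lk_eq hp hq hs hpq hsp.symm hqs] at hw'
      simp only [mem_insert, mem_singleton] at hw'
      tauto
    · rw [h.lk_eq hq hp hr hpq.symm hqr hpr] at hw'
      simp only [mem_insert, mem_singleton] at hw'
      tauto
    · rw [h.lk_eq hr hq hs hqr.symm hrs hqs] at hw'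
      simp only [mem_insert, mem_singleton] at hw'
      tauto
    · rw [h.lk_eq hs hp hr hsp hrs.symm hpr] at hw'
      simp only [mem_insert, mem_singleton] at hw'
      tauto

/-- a side with only one vertex -/
theorem cut_one {G : SimpleGraph V} {U : Finset V} {a b c d : V} {A B : Finset V}
    (h : Cut G U a b c d A B) (hA : A.card < 2) : ∃ v, A = {v} ∧ v ∈ U ∧ lk G U v = {a, b, c, d} := by
  obtain ⟨y, hy, z, hz, he⟩ := h.e1
  obtain ⟨y', hy', z', hz', he'⟩ := h.e3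
  have h1 : ∀ w ∈ A, w = y := by
    intro w hw
    exact card_le_one.1 (Nat.lt_succ_iff.1 hA) w hw y hy
  have hyU : y ∈ U := (h.union y).2 (Or.inl hy)
  have h2 : y ∈ lk2 G U a b := by
    rw [he]
    simp
  have h3 : y ∈ lk2 G U c d := by
    rw [he', ← h1 y' hy']
    simp
  rw [mem_lk2] at h2 h3
  refine ⟨y, ?_, hyU, ?_⟩
  · ext w
    rw [mem_singleton]
    exact ⟨h1 w, fun hw => hw ▸ hy⟩
  · ext w
    rw [mem_lk]
    simp only [mem_insert, mem_singleton]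
    constructor
    · rintro ⟨hwU, hyw⟩
      rcases (h.union w).1 hwU with hw | hw | hw
      · rw [h1 w hw] at hyw
        exact absurd rfl hyw.ne
      · exact absurd hyw (h.no y hy w hw)
      · exact hw
    · rintro (rfl | rfl | rfl | rfl)
      · exact ⟨h.sq.ha, h2.2.1.symm⟩
      · exact ⟨h.sq.hb, h2.2.2.symm⟩
      · exact ⟨h.sq.hc, h3.2.1.symm⟩
      · exact ⟨h.sq.hd, h3.2.2.symm⟩

theorem not_noSq {G : SimpleGraph V} {U : Finset V} {x u : V} (hx : x ∈ U) (hu : u ∈ U) (hxu : G.Adj x u)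
    (h : ¬ NoSq G U x u) : ∃ a b, Sq G U x u a b := by
  unfold NoSq at h
  push_neg at h
  obtain ⟨a, ha, b, hb, hax, hbu, hua, hxb, hab, hxa, hub⟩ := h
  exact ⟨a, b, hx, hu, ha, hb, hxu, hua, hab, hxb.symm, hxa, hub, hax.symm, hbu.symm⟩

/-- the last step -/
theorem cases_core {G : SimpleGraph V} {U : Finset V} (h : FS G U) {a b c d v x : V} (hq : Sq G U a b c d)
    (hv : v ∈ U) (hlv : lk G U v = {a, b, c, d}) (hx : x ∈ U) (hxv : x ≠ v) (hnxv : ¬ G.Adj v x)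
    (hxa : G.Adj x a) (hxc : G.Adj x c) (hlb : lk G U b = {v, a, x, c})
    (hn : ∀ x ∈ U, ∀ u ∈ U, G.Adj x u → ¬ NoSq G U x u) :
    ∃ a ∈ U, ∃ b ∈ U, a ≠ b ∧ ¬ G.Adj a b ∧ ∀ w ∈ U, w ≠ a → w ≠ b → G.Adj a w ∧ G.Adj b w := by
  have hv1 : ∀ w, w ∈ U ∧ G.Adj v w ↔ (w = a ∨ w = b ∨ w = c ∨ w = d) := by
    intro w
    rw [← mem_lk, hlv]
    simp only [mem_insert, mem_singleton]
  have hb1 : ∀ w, w ∈ U ∧ G.Adj b w ↔ (w = v ∨ w = a ∨ w = x ∨ w = c) := by
    intro w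
    rw [← mem_lk, hlb]
    simp only [mem_insert, mem_singleton]
  have hva : G.Adj v a := ((hv1 a).2 (by tauto)).2
  have hvb : G.Adj v b := ((hv1 b).2 (by tauto)).2
  have hvc : G.Adj v c := ((hv1 c).2 (by tauto)).2
  have hvd : G.Adj v d := ((hv1 d).2 (by tauto)).2
  have hbx : G.Adj b x := ((hb1 x).2 (by tauto)).2
  obtain ⟨y, z, hs⟩ := not_noSq hv hq.hb hvb (hn v hv b hq.hb hvb)
  have hzd : z = d := by
    rcases (hv1 z).1 ⟨hs.hd, hs.da.symm⟩ with rfl | rfl | rfl | h1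
    · exact absurd hq.ab.symm hs.bd
    · exact absurd rfl hs.nbd
    · exact absurd hq.bc hs.bd
    · exact h1
  have hyx : y = x := by
    rcases (hb1 y).1 ⟨hs.hc, hs.bc⟩ with rfl | rfl | h1 | rfl
    · exact absurd rfl hs.nac
    · exact absurd hva hs.ac
    · exact h1
    · exact absurd hvc hs.ac
  have hxd : G.Adj x d := by
    rw [← hzd, ← hyx]
    exact hs.cd
  have hlx : lk G U x = {a, b, c, d} :=
    (h.surf.cyc x hx).eq_four (mem_lk.2 ⟨hq.ha, hxa⟩) (mem_lk.2 ⟨hq.hb, hbx.symm⟩) (mem_lk.2 ⟨hq.hc, hxc⟩)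
      (mem_lk.2 ⟨hq.hd, hxd⟩) hq.ab hq.bc hq.cd hq.da hq.nac hq.nbd
  have hla : lk G U a = {v, b, x, d} :=
    (h.surf.cyc a hq.ha).eq_four (mem_lk.2 ⟨hv, hva.symm⟩) (mem_lk.2 ⟨hq.hb, hq.ab⟩) (mem_lk.2 ⟨hx, hxa.symm⟩)
      (mem_lk.2 ⟨hq.hd, hq.da.symm⟩) hvb hbx hxd hvd.symm hxv.symm hq.nbd
  have hlc : lk G U c = {v, b, x, d} :=
    (h.surf.cyc c hq.hc).eq_four (mem_lk.2 ⟨hv, hvc.symm⟩) (mem_lk.2 ⟨hq.hb, hq.bc.symm⟩)
      (mem_lk.2 ⟨hx, hxc.symm⟩) (mem_lk.2 ⟨hq.hd, hq.cd⟩) hvb hbx hxd hvd.symm hxv.symm hq.nbd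
  have hld : lk G U d = {v, a, x, c} :=
    (h.surf.cyc d hq.hd).eq_four (mem_lk.2 ⟨hv, hvd.symm⟩) (mem_lk.2 ⟨hq.ha, hq.da⟩)
      (mem_lk.2 ⟨hx, hxd.symm⟩) (mem_lk.2 ⟨hq.hc, hq.cd.symm⟩) hva hxa.symm hxc hvc.symm hxv.symm hq.nac
  have hall : ∀ w ∈ U, w = v ∨ w = x ∨ w = a ∨ w = b ∨ w = c ∨ w = d := by
    refine h.surf.con.all (p := fun w => w = v ∨ w = x ∨ w = a ∨ w = b ∨ w = c ∨ w = d) hv (Or.inl rfl) ?_
    intro p hp hpw w hw hpw'
    have hm : w ∈ lk G U p := mem_lk.2 ⟨hw, hpw'⟩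
    rcases hpw with rfl | rfl | rfl | rfl | rfl | rfl
    · rw [hlv] at hm
      simp only [mem_insert, mem_singleton] at hm
      tauto
    · rw [hlx] at hm
      simp only [mem_insert, mem_singleton] at hm
      tauto
    · rw [hla] at hm
      simp only [mem_insert, mem_singleton] at hm
      tauto
    · rw [hlb] at hm
      simp only [mem_insert, mem_singleton] at hm
      tauto
    · rw [hlc] at hm
      simp only [mem_insert, mem_singleton] at hm
      tauto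
    · rw [hld] at hm
      simp only [mem_insert, mem_singleton] at hm
      tauto
  refine ⟨v, hv, x, hx, hxv.symm, hnxv, fun w hw hwv hwx => ?_⟩
  rcases hall w hw with h1 | h1 | rfl | rfl | rfl | rfl
  · exact absurd h1 hwv
  · exact absurd h1 hwx
  · exact ⟨hva, hxa⟩
  · exact ⟨hvb, hbx.symm⟩
  · exact ⟨hvc, hxc⟩
  · exact ⟨hvd, hxd⟩

/-- A flag 2-sphere is the octahedron, or it has an edge which is in no induced 4-circuit, or there is an induced
4-circuit with at least two vertices on both sides. -/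
theorem fs_cases {G : SimpleGraph V} {U : Finset V} (h : FS G U) :
    (∃ a ∈ U, ∃ b ∈ U, a ≠ b ∧ ¬ G.Adj a b ∧ ∀ w ∈ U, w ≠ a → w ≠ b → G.Adj a w ∧ G.Adj b w) ∨
    (∃ x ∈ U, ∃ u ∈ U, G.Adj x u ∧ NoSq G U x u) ∨
    (∃ a b c d A B, Cut G U a b c d A B ∧ 2 ≤ A.card ∧ 2 ≤ B.card) := by
  by_cases h2 : ∃ x ∈ U, ∃ u ∈ U, G.Adj x u ∧ NoSq G U x u
  · exact Or.inr (Or.inl h2)
  by_cases h3 : ∃ a b c d A B, Cut G U a b c d A B ∧ 2 ≤ A.card ∧ 2 ≤ B.card
  · exact Or.inr (Or.inr h3)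
  left
  have hn : ∀ x ∈ U, ∀ u ∈ U, G.Adj x u → ¬ NoSq G U x u := fun x hx u hu hxu hN =>
    h2 ⟨x, hx, u, hu, hxu, hN⟩
  have hc : ∀ {a b c d : V} {A B : Finset V}, Cut G U a b c d A B → A.card < 2 ∨ B.card < 2 := by
    intro a b c d A B hcut
    by_contra hcon
    push_neg at hcon
    exact h3 ⟨a, b, c, d, A, B, hcut, hcon.1, hcon.2⟩
  -- a vertex whose neighbours are an induced 4-circuit
  have h4 : ∃ a b c d v, Sq G U a b c d ∧ v ∈ U ∧ lk G U v = {a, b, c, d} := by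
    obtain ⟨v₀, hv₀⟩ := h.surf.con.1
    obtain ⟨w₀, hw₀⟩ := (h.surf.cyc v₀ hv₀).con.1
    rw [mem_lk] at hw₀
    obtain ⟨a, b, hs⟩ := not_noSq hv₀ hw₀.1 hw₀.2 (hn v₀ hv₀ w₀ hw₀.1 hw₀.2)
    obtain ⟨A, B, hcut⟩ := exists_cut h hs
    rcases hc hcut with h5 | h5
    · obtain ⟨v, -, hv, hl⟩ := cut_one hcut h5
      exact ⟨_, _, _, _, v, hs, hv, hl⟩
    · obtain ⟨v, -, hv, hl⟩ := cut_one hcut.swap h5
      exact ⟨_, _, _, _, v, hs, hv, hl⟩
  obtain ⟨a, b, c, d, v, hq, hv, hlv⟩ := h4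
  have hv1 : ∀ w, w ∈ U ∧ G.Adj v w ↔ (w = a ∨ w = b ∨ w = c ∨ w = d) := by
    intro w
    rw [← mem_lk, hlv]
    simp only [mem_insert, mem_singleton]
  have hva : G.Adj v a := ((hv1 a).2 (by tauto)).2
  have hvb : G.Adj v b := ((hv1 b).2 (by tauto)).2
  have hvc : G.Adj v c := ((hv1 c).2 (by tauto)).2
  have hvd : G.Adj v d := ((hv1 d).2 (by tauto)).2
  obtain ⟨x, y, hs⟩ := not_noSq hv hq.ha hva (hn v hv a hq.ha hva)
  have hyc : y = c := by
    rcases (hv1 y).1 ⟨hs.hd, hs.da.symm⟩ with rfl | rfl | h1 | rfl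
    · exact absurd rfl hs.nbd
    · exact absurd hq.ab hs.bd
    · exact h1
    · exact absurd hq.da.symm hs.bd
  rw [hyc] at hs
  -- `b` and `d` are on different sides of `v, a, x, c`
  have hlk : lk2 G U v a = {b, d} := by
    symm
    refine eq_of_subset_of_card_le ?_ (by rw [h.surf.card_lk2 hv hq.ha hva, card_pair hq.nbd])
    intro t ht
    rw [mem_insert, mem_singleton] at ht
    rcases ht with rfl | rfl
    · exact mem_lk2.2 ⟨hq.hb, hvb, hq.ab⟩
    · exact mem_lk2.2 ⟨hq.hd, hvd, hq.da.symm⟩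
  obtain ⟨A, B, hcut⟩ := exists_cut h hs
  have h6 : ∃ A B, Cut G U v a x c A B ∧ b ∈ A ∧ d ∈ B := by
    obtain ⟨y', hy', z', hz', he⟩ := hcut.e1
    rw [hlk] at he
    have hb' : b ∈ ({y', z'} : Finset V) := by
      rw [← he]
      simp
    have hd' : d ∈ ({y', z'} : Finset V) := by
      rw [← he]
      simp
    simp only [mem_insert, mem_singleton] at hb' hd'
    have hne := hq.nbd
    rcases hb' with rfl | rfl
    · rcases hd' with h7 | rfl
      · exact absurd h7.symm hne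
      · exact ⟨A, B, hcut, hy', hz'⟩
    · rcases hd' with rfl | h7
      · exact ⟨B, A, hcut.swap, hz', hy'⟩
      · exact absurd h7.symm hne
  obtain ⟨A, B, hcut, hbA, hdB⟩ := h6
  rcases hc hcut with h7 | h7
  · obtain ⟨w, hA, -, hl⟩ := cut_one hcut h7
    rw [hA, mem_singleton] at hbA
    rw [← hbA] at hl
    exact cases_core h hq hv hlv hs.hc hs.nac.symm hs.ac hs.bc.symm hs.cd hl hn
  · obtain ⟨w, hB, -, hl⟩ := cut_one hcut.swap h7
    rw [hB, mem_singleton] at hdB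
    rw [← hdB] at hl
    have hq' : Sq G U a d c b :=
      ⟨hq.ha, hq.hd, hq.hc, hq.hb, hq.da.symm, hq.cd.symm, hq.bc.symm, hq.ab.symm, hq.ac,
        fun h8 => hq.bd h8.symm, hq.nac, hq.nbd.symm⟩
    have hlv' : lk G U v = {a, d, c, b} := by
      rw [hlv]
      ext t
      simp only [mem_insert, mem_singleton]
      tauto
    exact cases_core h hq' hv hlv' hs.hc hs.nac.symm hs.ac hs.bc.symm hs.cd hl hn

end Pool.Agent.H67.FS
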